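import Pool.Agent.V11327.GWtree

/-!
# Equality of conditioned trees does not force equal supports for a single row `Γ = (1, 1)`

Types `0, 1`. `ζ 0 = δ_{11}`, `ζ' 0 = (δ_{11} + δ_{1}) / 2`, `ζ 1 = ζ' 1 = (δ_∅ + δ_{11}) / 2`. A finite
tree with root type `0` and root word `11` has an odd number of vertices, one with root word `1` an even
number.
-/

set_option autoImplicit false

namespace Pool.Agent.Results.MP_e34f63_pr.ParityExample

open MeasureTheory ProbabilityTheory Pool.Agent.V11327.GWtree

/-- `ζ` -/
noncomputable def z (i : Fin 2) : PMF (List (Fin 2)) :=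
  if i = 0 then PMF.pure [1, 1] else PMF.uniformOfFinset {[], [1, 1]} (by simp)

/-- `ζ'` -/
noncomputable def z' (i : Fin 2) : PMF (List (Fin 2)) :=
  if i = 0 then PMF.uniformOfFinset {[1], [1, 1]} (by simp) else PMF.uniformOfFinset {[], [1, 1]} (by simp)

/-- overwrite all words of type `0` by `11` -/
def G (ω : List ℕ × Fin 2 → List (Fin 2)) (p : List ℕ × Fin 2) : List (Fin 2) :=
  if p.2 = 0 then [1, 1] else ω p

theorem meas_G : Measurable G := by
  refine measurable_pi_lambda _ fun p => ?_
  unfold G
  by_cases h : p.2 = 0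
  · simp only [h, if_true]; exact measurable_const
  · simp only [h, if_false]; exact measurable_pi_apply p

instance : IsProbabilityMeasure (words z) := by unfold words; infer_instance
instance : IsProbabilityMeasure (words z') := by unfold words; infer_instance

theorem z_meas (s : Set (List (Fin 2))) : (z 0).toMeasure s = s.indicator 1 [1, 1] := by
  have : z 0 = PMF.pure [1, 1] := if_pos rfl
  rw [this, PMF.toMeasure_pure]
  exact Measure.dirac_apply' _ (MeasurableSet.of_discrete)

theorem z_one : z 1 = z' 1 := by
  unfold z z'; simp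

/-- `P' (root word is 11, G ω ∈ S) = P (S) / 2`, on boxes -/
theorem box (s : Finset (List ℕ × Fin 2)) (t : List ℕ × Fin 2 → Set (List (Fin 2))) :
    words z' ({ω | ω ([], 0) = [1, 1]} ∩ G ⁻¹' (Set.pi s t)) = (1 / 2) * ∏ p ∈ s, (z p.2).toMeasure (t p) := by
  classical
  have hhalf : (z' 0).toMeasure {[1, 1]} = 1 / 2 := by
    rw [PMF.toMeasure_apply_singleton _ _ (MeasurableSet.of_discrete)]
    have : z' 0 = PMF.uniformOfFinset {[1], [1, 1]} (by simp) := if_pos rfl
    rw [this, PMF.uniformOfFinset_apply_of_mem _ (by simp)]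
    simp
  by_cases hall : ∀ p ∈ s, p.2 = 0 → [1, 1] ∈ t p
  · set t' : List ℕ × Fin 2 → Set (List (Fin 2)) := fun p => if p = ([], 0) then {[1, 1]} else t p with ht'
    have e : ({ω | ω ([], 0) = [1, 1]} ∩ G ⁻¹' (Set.pi s t))
        = Set.pi ((insert (([] : List ℕ), (0 : Fin 2)) (s.filter fun p => p.2 ≠ 0) : Finset _) : Set _) t' := by
      ext ω
      simp only [Set.mem_inter_iff, Set.mem_ofPred_eq, Set.mem_preimage, Set.mem_pi,
        Finset.mem_coe, Finset.mem_insert, Finset.mem_filter]
      constructor
      · rintro ⟨h1, h2⟩ p hp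
        rcases hp with rfl | ⟨hp1, hp2⟩
        · simp only [ht', if_true]; exact h1
        · have hne : p ≠ ([], 0) := fun h => hp2 (by rw [h])
          simp only [ht', hne, if_false]
          have := h2 p hp1
          simpa [G, hp2] using this
      · intro h
        constructor
        · have := h ([], 0) (Or.inl rfl)
          simpa [ht'] using this
        · intro p hp
          by_cases hp2 : p.2 = 0
          · have := hall p hp hp2
            simpa [G, hp2] using this
          · have hne : p ≠ ([], 0) := fun h => hp2 (by rw [h])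
            have := h p (Or.inr ⟨hp, hp2⟩)
            simp only [ht', hne, if_false] at this
            simpa [G, hp2] using this
    rw [e]
    unfold words
    rw [Measure.infinitePi_pi _ (fun _ _ => MeasurableSet.of_discrete), Finset.prod_insert (by simp)]
    refine congrArg₂ _ ?_ ?_
    · simp only [ht', if_true]; exact hhalf
    · rw [← Finset.prod_filter_mul_prod_filter_not s (fun p => p.2 ≠ 0)]
      have h1 : ∏ p ∈ s.filter (fun p => ¬ p.2 ≠ 0), (z p.2).toMeasure (t p) = 1 := by
        refine Finset.prod_eq_one fun p hp => ?_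
        rw [Finset.mem_filter, not_not] at hp
        rw [hp.2, z_meas, Set.indicator_of_mem (hall p hp.1 hp.2)]
        rfl
      rw [h1, mul_one]
      refine Finset.prod_congr rfl fun p hp => ?_
      rw [Finset.mem_filter] at hp
      have hne : p ≠ ([], 0) := fun h => hp.2 (by rw [h])
      have hp1 : p.2 = 1 := by
        have := hp.2
        omega
      simp only [ht', hne, if_false, hp1, z_one]
  · push Not at hall
    obtain ⟨p, hp, hp2, hp3⟩ := hall
    have e : ({ω | ω ([], 0) = [1, 1]} ∩ G ⁻¹' (Set.pi s t)) = ∅ := by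
      ext ω
      simp only [Set.mem_inter_iff, Set.mem_preimage, Set.mem_pi, Set.mem_empty_iff_false, iff_false,
        not_and]
      intro _ h
      have := h p (Finset.mem_coe.2 hp)
      simp [G, hp2] at this
      exact hp3 this
    have h0 : ∏ p ∈ s, (z p.2).toMeasure (t p) = 0 := by
      refine Finset.prod_eq_zero hp ?_
      rw [hp2, z_meas, Set.indicator_of_notMem hp3]
    rw [e, h0, measure_empty, mul_zero]

/-- the root word of type `0` is `11` with probability `1/2` under `ζ'`, independently of `G` -/
theorem restrict_map (S : Set (List ℕ × Fin 2 → List (Fin 2))) (hS : MeasurableSet S) :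
    words z' ({ω | ω ([], 0) = [1, 1]} ∩ G ⁻¹' S) = (1 / 2) * words z S := by
  have hR : MeasurableSet {ω : List ℕ × Fin 2 → List (Fin 2) | ω ([], 0) = [1, 1]} := by
    have hm : Measurable (fun ω : List ℕ × Fin 2 → List (Fin 2) => ω ([], 0)) := measurable_pi_apply _
    exact hm (MeasurableSet.of_discrete (s := {x | x = [1, 1]}))
  set Q : Measure (List ℕ × Fin 2 → List (Fin 2)) :=
    (2 : ENNReal) • ((words z').restrict {ω | ω ([], 0) = [1, 1]}).map G with hQ
  have hQa : ∀ S, MeasurableSet S → Q S = 2 * words z' ({ω | ω ([], 0) = [1, 1]} ∩ G ⁻¹' S) := by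
    intro S hS
    rw [hQ, Measure.smul_apply, Measure.map_apply meas_G hS, Measure.restrict_apply (meas_G hS),
      smul_eq_mul, Set.inter_comm]
  have hQe : Q = words z := by
    unfold words
    refine Measure.eq_infinitePi _ fun s t ht => ?_
    rw [hQa _ (MeasurableSet.pi s.countable_toSet fun _ _ => ht _), box s t, ← mul_assoc]
    rw [show (2 : ENNReal) * (1 / 2) = 1 by
      rw [one_div]; exact ENNReal.mul_inv_cancel (by norm_num) (by norm_num), one_mul]
  rw [← hQe, hQa S hS, ← mul_assoc]
  rw [show (1 / 2 : ENNReal) * 2 = 1 by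
      rw [one_div]; exact ENNReal.inv_mul_cancel (by norm_num) (by norm_num), one_mul]

theorem map_G : (words z').map G = words z := by
  have h : (fun (x : List ℕ × Fin 2 → List (Fin 2)) i =>
      (fun (p : List ℕ × Fin 2) (y : List (Fin 2)) => if p.2 = 0 then [1, 1] else y) i (x i)) = G := rfl
  unfold words
  rw [← h, Measure.infinitePi_map_pi _ (fun p => Measurable.of_discrete)]
  congr 1
  funext p
  show Measure.map (fun y : List (Fin 2) => if p.2 = 0 then [1, 1] else y) (z' p.2).toMeasure
    = (z p.2).toMeasure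
  by_cases hp : p.2 = 0
  · have e : (fun y : List (Fin 2) => if p.2 = 0 then [1, 1] else y) = fun _ => [1, 1] := by
      funext y; rw [if_pos hp]
    rw [e, hp, Measure.map_const, measure_univ, one_smul]
    have : z 0 = PMF.pure [1, 1] := if_pos rfl
    rw [this, PMF.toMeasure_pure]
  · have e : (fun y : List (Fin 2) => if p.2 = 0 then [1, 1] else y) = id := by
      funext y; rw [if_neg hp]; rfl
    have hp1 : p.2 = 1 := by omega
    rw [e, hp1, z_one, Measure.map_id]

/-- the coordinates of type `1` -/
theorem ae_one (y : Fin 2 → PMF (List (Fin 2))) (hy : y 1 = z' 1) :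
    ∀ᵐ ω ∂(words y), ∀ u : List ℕ, ω (u, 1) = [] ∨ ω (u, 1) = [1, 1] := by
  rw [ae_all_iff]
  intro u
  have h1 : (words y).map (fun ω => ω (u, 1)) = (z' 1).toMeasure := by
    unfold words
    rw [Measure.infinitePi_map_eval (fun p : List ℕ × Fin 2 => (y p.2).toMeasure) (u, 1)]
    simp only [hy]
  have h2 : ∀ᵐ x ∂(z' 1).toMeasure, x = [] ∨ x = [1, 1] := by
    have h3 : (z' 1).toMeasure {x | x = [] ∨ x = [1, 1]}ᶜ = 0 := by
      rw [PMF.toMeasure_apply_eq_zero_iff _ (MeasurableSet.of_discrete)]
      have : z' 1 = PMF.uniformOfFinset {[], [1, 1]} (by simp) := if_neg (by decide)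
      rw [this, PMF.support_uniformOfFinset, Set.disjoint_left]
      intro x hx hx'
      apply hx'
      simpa using hx
    exact h3
  rw [← h1] at h2
  exact ae_of_ae_map (measurable_pi_apply _).aemeasurable h2

theorem ae_zero : ∀ᵐ ω ∂(words z'), ω ([], 0) = [1] ∨ ω ([], 0) = [1, 1] := by
  have h1 : (words z').map (fun ω => ω ([], 0)) = (z' 0).toMeasure := by
    unfold words
    rw [Measure.infinitePi_map_eval (fun p : List ℕ × Fin 2 => (z' p.2).toMeasure) ([], 0)]
  have h2 : ∀ᵐ x ∂(z' 0).toMeasure, x = [1] ∨ x = [1, 1] := by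
    have h3 : (z' 0).toMeasure {x | x = [1] ∨ x = [1, 1]}ᶜ = 0 := by
      rw [PMF.toMeasure_apply_eq_zero_iff _ (MeasurableSet.of_discrete)]
      have : z' 0 = PMF.uniformOfFinset {[1], [1, 1]} (by simp) := if_pos rfl
      rw [this, PMF.support_uniformOfFinset, Set.disjoint_left]
      intro x hx hx'
      apply hx'
      simpa using hx
    exact h3
  rw [← h1] at h2
  exact ae_of_ae_map (measurable_pi_apply _).aemeasurable h2

/-! ### Deterministic facts -/

theorem getElem_one (w : List (Fin 2)) (hw : w = [] ∨ w = [1, 1] ∨ w = [1]) (c : ℕ) :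
    w[c]? ≠ some 0 := by
  rcases hw with rfl | rfl | rfl
  · simp
  · rcases c with _ | _ | c <;> simp
  · rcases c with _ | c <;> simp

theorem tree_one (ω : List ℕ × Fin 2 → List (Fin 2)) (h : ∀ u, ω (u, 1) = [] ∨ ω (u, 1) = [1, 1])
    (u : List ℕ) : tree 1 ω u = tree 1 (G ω) u ∧ tree 1 ω u ≠ some 0 := by
  induction u with
  | nil => exact ⟨rfl, by simp [tree]⟩
  | cons c u ih =>
    simp only [tree, ← ih.1]
    rcases hk : tree 1 ω u with _ | k
    · simp
    · have hk1 : k = 1 := by
        have := ih.2
        rw [hk] at this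
        have : k ≠ 0 := fun h => this (by rw [h])
        omega
      subst hk1
      refine ⟨by simp [G], ?_⟩
      simp only [Option.bind_some]
      exact getElem_one _ (by rcases h u with h | h <;> simp [h]) c

theorem tree_zero_ne (ω : List ℕ × Fin 2 → List (Fin 2))
    (h : ∀ u, ω (u, 1) = [] ∨ ω (u, 1) = [1, 1]) (h0 : ω ([], 0) = [1] ∨ ω ([], 0) = [1, 1])
    (u : List ℕ) (hu : u ≠ []) : tree 0 ω u ≠ some 0 := by
  induction u with
  | nil => exact (hu rfl).elim
  | cons c u ih =>
    simp only [tree]
    rcases eq_or_ne u [] with rfl | hne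
    · simp only [tree, Option.bind_some]
      exact getElem_one _ (by rcases h0 with h | h <;> simp [h]) c
    · rcases hk : tree 0 ω u with _ | k
      · simp
      · have hk1 : k = 1 := by
          have := ih hne
          rw [hk] at this
          have : k ≠ 0 := fun h => this (by rw [h])
          omega
        subst hk1
        simp only [Option.bind_some]
        exact getElem_one _ (by rcases h u with h | h <;> simp [h]) c

theorem tree_zero (ω : List ℕ × Fin 2 → List (Fin 2))
    (h : ∀ u, ω (u, 1) = [] ∨ ω (u, 1) = [1, 1]) (h0 : ω ([], 0) = [1, 1])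
    (u : List ℕ) : tree 0 ω u = tree 0 (G ω) u := by
  induction u with
  | nil => rfl
  | cons c u ih =>
    simp only [tree, ← ih]
    rcases eq_or_ne u [] with rfl | hne
    · simp only [tree, Option.bind_some, h0]
      simp [G]
    · rcases hk : tree 0 ω u with _ | k
      · simp
      · have hk1 : k = 1 := by
          have := tree_zero_ne ω h (Or.inr h0) u hne
          rw [hk] at this
          have : k ≠ 0 := fun h => this (by rw [h])
          omega
        subst hk1
        simp [G]

theorem parity_zero (ω : List ℕ × Fin 2 → List (Fin 2))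
    (h : ∀ u, ω (u, 1) = [] ∨ ω (u, 1) = [1, 1]) (h0 : ω ([], 0) = [1] ∨ ω ([], 0) = [1, 1]) (g : ℕ)
    (hg : Set.encard {u | tree 0 ω u ≠ none} = g) : Even (g + 1 + (ω ([], 0)).length) := by
  refine parity 0 ω _ rfl ?_ g hg
  intro u k hu hk
  have hk1 : k = 1 := by
    have := tree_zero_ne ω h h0 u hu
    rw [hk] at this
    have : k ≠ 0 := fun h => this (by rw [h])
    omega
  subst hk1
  rcases h u with h | h <;> simp [h]

/-! ### The two root types -/

theorem law_one : treeLaw z 1 = treeLaw z' 1 := by
  unfold treeLaw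
  rw [← map_G, Measure.map_map (measurable_tree 1) meas_G]
  refine Measure.map_congr ?_
  filter_upwards [ae_one z' rfl] with ω hω
  funext u
  exact ((tree_one ω hω u).1).symm

theorem meas_event (g : ℕ) : MeasurableSet (event (K := 2) (fun _ => 1) g) := by
  rw [event_two]; exact measurable_size g

theorem odd_of_pos (g : ℕ) (hg : treeLaw z 0 (event (fun _ => 1) g) ≠ 0) : Odd g := by
  by_contra hodd
  rw [Nat.not_odd_iff_even] at hodd
  apply hg
  unfold treeLaw
  rw [Measure.map_apply (measurable_tree 0) (meas_event g)]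
  have hroot : ∀ᵐ ω ∂(words z), ω ([], 0) = [1, 1] := by
    rw [← map_G]
    refine (ae_map_iff meas_G.aemeasurable ?_).2 (ae_of_all _ fun ω => by simp [G])
    have hm : Measurable (fun ω : List ℕ × Fin 2 → List (Fin 2) => ω ([], 0)) := measurable_pi_apply _
    exact hm (MeasurableSet.of_discrete (s := {x | x = [1, 1]}))
  have hae : ∀ᵐ ω ∂(words z), ω ∉ tree 0 ⁻¹' event (fun _ => 1) g := by
    filter_upwards [hroot, ae_one z z_one] with ω h1 h2 h3
    rw [Set.mem_preimage, event_two] at h3
    have := parity_zero ω h2 (Or.inr h1) g h3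
    rw [h1] at this
    simp only [List.length_cons, List.length_nil] at this
    obtain ⟨a, ha⟩ := this
    obtain ⟨b, hb⟩ := hodd
    omega
  exact measure_eq_zero_iff_ae_notMem.2 hae

theorem law_zero (g : ℕ) (hg : Odd g) (B : Set (Tree 2)) (hB : MeasurableSet B) :
    treeLaw z' 0 (B ∩ event (fun _ => 1) g) = (1 / 2) * treeLaw z 0 (B ∩ event (fun _ => 1) g) := by
  have hBE : MeasurableSet (B ∩ event (K := 2) (fun _ => 1) g) := hB.inter (meas_event g)
  unfold treeLaw
  rw [Measure.map_apply (measurable_tree 0) hBE, Measure.map_apply (measurable_tree 0) hBE,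
    ← restrict_map _ (measurable_tree 0 hBE)]
  refine measure_congr ?_
  filter_upwards [ae_zero, ae_one z' rfl] with ω h0 h1
  refine propext ?_
  show tree 0 ω ∈ B ∩ event (fun _ => 1) g ↔ ω ([], 0) = [1, 1] ∧ tree 0 (G ω) ∈ B ∩ event (fun _ => 1) g
  constructor
  · intro h
    have hr : ω ([], 0) = [1, 1] := by
      rcases h0 with h0 | h0
      · exfalso
        have h3 := h.2
        rw [event_two] at h3
        have := parity_zero ω h1 (Or.inl h0) g h3
        rw [h0] at this
        simp only [List.length_cons, List.length_nil] at this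
        obtain ⟨a, ha⟩ := this
        obtain ⟨b, hb⟩ := hg
        omega
      · exact h0
    refine ⟨hr, ?_⟩
    have : tree 0 ω = tree 0 (G ω) := funext (tree_zero ω h1 hr)
    rwa [← this]
  · rintro ⟨hr, h⟩
    have : tree 0 ω = tree 0 (G ω) := funext (tree_zero ω h1 hr)
    rwa [this]

/-- There are two offspring families on two types that satisfy condition (ii) for the single row
`Γ = (1, 1)` but do not have equal supports. -/
theorem result : ∃ ζ ζ' : Fin 2 → PMF (List (Fin 2)),
    SameConditioned (fun _ => 1) ζ ζ' ∧ ¬ SameSupport ζ ζ' := by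
  refine ⟨z, z', ?_, ?_⟩
  · intro i g hg
    fin_cases i
    · have hodd := odd_of_pos g hg
      have h1 := law_zero g hodd Set.univ MeasurableSet.univ
      rw [Set.univ_inter] at h1
      refine Measure.ext fun B hB => ?_
      show (cond (treeLaw z 0) (event (fun _ => 1) g)) B = (cond (treeLaw z' 0) (event (fun _ => 1) g)) B
      rw [cond_apply (meas_event g), cond_apply (meas_event g), h1, Set.inter_comm, law_zero g hodd B hB,
        ENNReal.mul_inv (Or.inl (by norm_num)) (Or.inl (by norm_num)), one_div, inv_inv]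
      rw [mul_mul_mul_comm, ENNReal.mul_inv_cancel (by norm_num) (by norm_num), one_mul]
    · show cond (treeLaw z 1) (event (fun _ => 1) g) = cond (treeLaw z' 1) (event (fun _ => 1) g)
      rw [law_one]
  · intro h
    have h1 := (h 0 [1]).1 (by
      have : z 0 = PMF.pure [1, 1] := if_pos rfl
      rw [this, PMF.pure_apply]
      simp)
    have : z' 0 = PMF.uniformOfFinset {[1], [1, 1]} (by simp) := if_pos rfl
    rw [this, PMF.uniformOfFinset_apply_of_mem _ (by simp)] at h1
    simp at h1

end Pool.Agent.Results.MP_e34f63_pr.ParityExample
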